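import Pool.Agent.FS.C5Tri.Up

/-!
The five-cycle joined with `q + 1` independent triples.
-/

namespace Pool.Agent.FS.C5Tri

open Finset Pool.Agent.Lib.MP_1b6faf_co.A1
open scoped Classical

/-- adjacency of the five-cycle joined with independent triples -/
def adj (q : ℕ) : Fin 5 ⊕ Fin (q + 1) × Fin 3 → Fin 5 ⊕ Fin (q + 1) × Fin 3 → Prop
  | .inl a, .inl b => a + 1 = b ∨ b + 1 = a
  | .inl _, .inr _ => True
  | .inr _, .inl _ => True
  | .inr x, .inr y => x.1 ≠ y.1

/-- the five-cycle joined with independent triples -/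
def gs (q : ℕ) : SimpleGraph (Fin 5 ⊕ Fin (q + 1) × Fin 3) where
  Adj := adj q
  symm := ⟨by
    rintro (a | a) (b | b) h
    · exact Or.symm h
    · trivial
    · trivial
    · exact Ne.symm h⟩
  loopless := ⟨by
    rintro (a | a) h
    · revert a; simp only [adj]; decide
    · exact h rfl⟩

theorem card_V (q : ℕ) : (univ : Finset (Fin 5 ⊕ Fin (q + 1) × Fin 3)).card = 3 * q + 8 := by
  simp; ring

theorem nn_inl (q : ℕ) (a : Fin 5) : nn (gs q) (.inl a) univ = {.inl (a + 2), .inl (a + 3)} := by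
  ext (b | b)
  · simp only [mem_nn, mem_univ, true_and, gs, adj, ne_eq, Sum.inl.injEq, mem_insert, mem_singleton]
    revert a b; decide
  · simp [mem_nn, gs, adj]

theorem nn_inr (q : ℕ) (i : Fin (q + 1)) (j : Fin 3) :
    nn (gs q) (.inr (i, j)) univ = {.inr (i, j + 1), .inr (i, j + 2)} := by
  ext (b | ⟨k, l⟩)
  · simp [mem_nn, gs, adj]
  · simp only [mem_nn, mem_univ, true_and, gs, adj, ne_eq, Sum.inr.injEq, mem_insert, mem_singleton,
      Prod.mk.injEq, not_not]
    by_cases c : k = i
    · subst c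
      simp only [true_and, and_true]
      revert j l; decide
    · simp [c, Ne.symm c]

theorem card_nn (q : ℕ) (v : Fin 5 ⊕ Fin (q + 1) × Fin 3) : (nn (gs q) v univ).card = 2 := by
  rcases v with a | ⟨i, j⟩
  · rw [nn_inl, card_pair]
    simp only [ne_eq, Sum.inl.injEq]
    revert a; decide
  · rw [nn_inr, card_pair]
    simp only [ne_eq, Sum.inr.injEq, Prod.mk.injEq, true_and]
    revert j; decide

theorem deg (q : ℕ) (v : Fin 5 ⊕ Fin (q + 1) × Fin 3) : (nb (gs q) v univ).card = 3 * q + 5 := by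
  have := card_nb_nn (G := gs q) (mem_univ v)
  rw [card_nn, card_V] at this
  omega

theorem free (q : ℕ) : (gs q).CliqueFree (q + 3 + 1) := by
  intro Q hQ
  have h0 := card_toLeft_add_card_toRight (u := Q)
  have h1 : Q.toLeft.card ≤ 2 := by
    have key : ∀ T : Finset (Fin 5), (∀ a ∈ T, ∀ b ∈ T, a ≠ b → a + 1 = b ∨ b + 1 = a) →
        T.card ≤ 2 := by decide
    refine key _ fun a ha b hb hab => ?_
    exact hQ.1 (mem_coe.2 (mem_toLeft.1 ha)) (mem_coe.2 (mem_toLeft.1 hb)) (by simpa using hab)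
  have h2 : Q.toRight.card ≤ (univ : Finset (Fin (q + 1))).card := by
    refine card_le_card_of_injOn Prod.fst (fun _ _ => mem_coe.2 (mem_univ _)) fun x hx y hy e => ?_
    by_contra c
    exact hQ.1 (mem_coe.2 (mem_toRight.1 hx)) (mem_coe.2 (mem_toRight.1 hy)) (by simpa using c) e
  rw [card_univ, Fintype.card_fin] at h2
  have := hQ.2
  omega

theorem M_le {V : Type*} {G : SimpleGraph V} {A T : Finset V} (h : ∀ x ∈ A, (nn G x A).card ≤ 2)
    (hT : T ⊆ A) (h' : ∀ x ∈ T, (nn G x A).card ≤ 1) : M G A + T.card ≤ 2 * A.card := by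
  have a1 := sum_le_card_nsmul T _ 1 h'
  have a2 := sum_le_card_nsmul (A \ T) _ 2 fun x hx => h x (mem_sdiff.1 hx).1
  have a3 := card_sdiff_add_card_eq_card hT
  rw [M, ← sum_sdiff hT]
  rw [smul_eq_mul] at a1 a2
  omega

theorem link_ge (q : ℕ) (v : Fin 5 ⊕ Fin (q + 1) × Fin 3) :
    (3 * q + 5) * (3 * q + 2) + (if v.isLeft then 2 else 0) ≤ 2 * K (gs q) (nb (gs q) v univ) 2 := by
  have h1 := K_two (G := gs q) (nb (gs q) v univ)
  have h2 : ∀ x ∈ nb (gs q) v univ, (nn (gs q) x (nb (gs q) v univ)).card ≤ 2 := fun x _ =>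
    (card_le_card (nn_mono x (subset_univ _))).trans (card_nn q x).le
  rcases v with a | b
  · have h3 := M_le h2 (T := {.inl (a + 1), .inl (a + 4)}) ?_ ?_
    · rw [card_pair (by simp only [ne_eq, Sum.inl.injEq]; clear * -; revert a; decide)] at h3
      rw [deg] at h1 h3
      simp only [Sum.isLeft_inl, if_true]
      nlinarith
    · intro x hx
      clear h1 h2
      simp only [mem_insert, mem_singleton] at hx
      rcases hx with rfl | rfl <;> simp only [mem_nb, mem_univ, true_and, gs, adj] <;>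
        revert a <;> decide
    · intro x hx
      clear h1 h2
      simp only [mem_insert, mem_singleton] at hx
      refine card_le_one.2 ?_
      rintro (c | c) hc (d | d) hd
      · rcases hx with rfl | rfl <;>
          simp only [mem_nn, mem_nb, mem_univ, true_and, gs, adj, ne_eq, Sum.inl.injEq] at hc hd ⊢ <;>
          revert a c d <;> decide
      all_goals rcases hx with rfl | rfl <;> simp [mem_nn, gs, adj] at hc hd
  · have h3 := M_le h2 (T := ∅) (empty_subset _) (by simp)
    rw [deg] at h1 h3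
    simp only [Sum.isLeft_inr, card_empty, Bool.false_eq_true, if_false] at h3 ⊢
    nlinarith

theorem lower (q : ℕ) :
    (3 * q + 8) * ((3 * q + 5) * (3 * q + 2)) + 10 ≤ 6 * K (gs q) univ 3 := by
  have a1 := K_double (G := gs q) univ 2
  have a2 := sum_le_sum fun v (_ : v ∈ univ) => link_ge q v
  rw [← mul_sum, ← a1, sum_add_distrib, sum_const, smul_eq_mul, card_V, Fintype.sum_sum_type] at a2
  simp at a2
  omega

end Pool.Agent.FS.C5Tri
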