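import Pool.Agent.FS.C5Tri.Dis
import Pool.Agent.FS.C5Tri.Wit

/-!
Both bounds for cliques of every size.
-/

namespace Pool.Agent.FS.C5Tri

open Finset Polynomial Pool.Agent.Lib.MP_1b6faf_co.A1
open scoped Classical

variable {V : Type*} {G : SimpleGraph V}

/-- the clique counts of `A` are at least the coefficients of `P` -/
def Lb (G : SimpleGraph V) (A : Finset V) (P : ℕ[X]) : Prop := ∀ j, P.coeff j ≤ K G A j

theorem Lb.mono {A B : Finset V} {P : ℕ[X]} (h : Lb G A P) (hA : A ⊆ B) : Lb G B P :=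
  fun j => (h j).trans (K_mono j hA)

theorem Lb.add {S B : Finset V} {P Q : ℕ[X]} {x : V} (hx : x ∉ S) (h1 : Lb G S P) (h2 : Lb G B Q)
    (hB : B ⊆ S) (ha : ∀ y ∈ B, G.Adj x y) : Lb G (insert x S) (P + X * Q) := by
  intro j
  rcases j with _ | j
  · have := h1 0
    rw [K_zero] at this ⊢
    simpa using this
  · rw [K_rec (mem_insert_self x S), erase_insert hx, coeff_add, coeff_X_mul]
    exact Nat.add_le_add (h1 _) (h2.mono
      (fun y hy => mem_nb.2 ⟨mem_insert_of_mem (hB hy), ha y hy⟩) _)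

theorem Lb.triple {S T : Finset V} {P : ℕ[X]} {x : Fin 3 → V} (hx : ∀ j, x j ∉ S)
    (hi : Function.Injective x) (h : Lb G S P) (ha : ∀ j, ∀ y ∈ S, G.Adj (x j) y) (hS : S ⊆ T)
    (hT : ∀ j, x j ∈ T) : Lb G T ((1 + 3 * X) * P) := by
  have h1 := Lb.add (hx 0) h h Subset.rfl (ha 0)
  have h2 := Lb.add (x := x 1) (by simp [hx, hi.eq_iff]) h1 h (subset_insert _ _) (ha 1)
  have h3 := Lb.add (x := x 2) (by simp [hx, hi.eq_iff]) h2 h
    ((subset_insert _ _).trans (subset_insert _ _)) (ha 2)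
  exact Lb.mono (by convert h3 using 1; ring)
    (insert_subset (hT 2) (insert_subset (hT 1) (insert_subset (hT 0) hS)))

/-- the index of the triple of a vertex, shifted by one; zero on the five-cycle -/
def lev (q : ℕ) : Fin 5 ⊕ Fin (q + 1) × Fin 3 → ℕ
  | .inl _ => 0
  | .inr x => x.1 + 1

theorem lb_lev (q : ℕ) : ∀ i ≤ q + 1, Lb (gs q) (univ.filter fun v => lev q v ≤ i)
    ((1 + 5 * X + 5 * X ^ 2) * (1 + 3 * X) ^ i) := by
  intro i
  induction i with
  | zero =>
    intro _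
    have c : (univ.map (Function.Embedding.inl : Fin 5 ↪ Fin 5 ⊕ Fin (q + 1) × Fin 3)).card = 5 := by
      simp
    refine Lb.mono (A := univ.map Function.Embedding.inl) (fun j => ?_) fun v hv => ?_
    · have a1 := K_two (G := gs q) (univ.map Function.Embedding.inl)
      have a2 := M_le_mul (G := gs q) (A := univ.map Function.Embedding.inl) (c := 2) fun x _ =>
        (card_le_card (nn_mono x (subset_univ _))).trans (card_nn q x).le
      rw [c] at a1 a2
      rw [pow_zero, mul_one]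
      rcases j with _ | _ | _ | j
      · simp
      · rw [K_one, c]; simp [coeff_one]
      · have : 5 ≤ K (gs q) (univ.map Function.Embedding.inl) 2 := by omega
        simpa [coeff_one, coeff_X] using this
      · simp [coeff_one, coeff_X]
    · obtain ⟨a, -, rfl⟩ := mem_map.1 hv
      simp [lev]
  | succ i ih =>
    intro hi
    have h := ih (by omega)
    have ha : ∀ j : Fin 3, ∀ y ∈ univ.filter fun v => lev q v ≤ i,
        (gs q).Adj (.inr (⟨i, by omega⟩, j)) y := by
      rintro j (y | y) hy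
      · trivial
      · have := (mem_filter.1 hy).2
        simp only [lev] at this
        intro e
        have := congrArg Fin.val e
        simp only at this
        omega
    have h3 := Lb.triple (T := univ.filter fun v => lev q v ≤ i + 1)
      (x := fun j => .inr (⟨i, by omega⟩, j)) (fun j => by simp [lev])
      (fun a b e => by simpa using e) h ha
      (fun v hv => mem_filter.2 ⟨mem_univ _, (mem_filter.1 hv).2.trans (by omega)⟩)
      fun j => by simp [lev]
    convert h3 using 1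
    ring

theorem lower_all (q t : ℕ) :
    ((1 + 5 * X + 5 * X ^ 2) * (1 + 3 * X) ^ (q + 1) : ℕ[X]).coeff t ≤ K (gs q) univ t :=
  (lb_lev q (q + 1) le_rfl).mono (subset_univ _) t

variable [Fintype V]

theorem link_all {n : ℕ} (hd : ∀ v, (nb G v univ).card ≤ 3 * (n + 1) + 5)
    (hc : CF G univ (n + 1 + 3)) (v : V) (j : ℕ) :
    3 * K G (nb G v univ) j ≤
      3 * ((1 + 5 * X + 5 * X ^ 2) * (1 + 3 * X) ^ (n + 1) : ℕ[X]).coeff j +
        (X ^ 2 * (1 + 3 * X) ^ (n + 1) : ℕ[X]).coeff j *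
          if Top G (n + 1) v then 3 else if Gd G (n + 1) (nb G v univ) then 1 else 0 := by
  have cf : CF G (nb G v univ) (n + 3) := CF.nb hc (mem_univ v)
  have h5 := hd v
  split_ifs with c1 c2
  · have := (zyk 1 (n := n + 2) cf (by omega)).le 0
      (Q := (1 + 5 * X + 5 * X ^ 2) * (1 + 3 * X) ^ (n + 1) + X ^ 2 * (1 + 3 * X) ^ (n + 1))
      (by ring) j
    rw [coeff_add] at this
    omega
  · obtain ⟨g1, g2, p, p1, r, r1, p2, r2⟩ := c2
    obtain ⟨x, hx, h3⟩ : ∃ x ∈ nb G v univ, 3 ≤ (nn G x (nb G v univ)).card := by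
      by_contra e
      push Not at e
      have hr : r ∈ nn G p (nb G v univ) := by rw [p2]; simp
      have a1 := M_le (G := G) (T := {r, p}) (fun x hx => Nat.lt_succ_iff.1 (e x hx))
        (insert_subset r1 (singleton_subset_iff.2 p1)) fun x hx => by
          rcases mem_insert.1 hx with rfl | hx
          · rw [r2]; simp
          · rw [mem_singleton.1 hx, p2]; simp
      rw [card_pair (mem_nn.1 hr).2.1] at a1
      obtain ⟨a2, a3⟩ := turan _ _ cf
      exact c1 ⟨g1, by omega, a3 (by omega)⟩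
    have a1 := (mid cf (by omega) hx h3).le 0
      (Q := (1 + 5 * X + 5 * X ^ 2) * (1 + 3 * X) ^ (n + 1) + X ^ 3 * (1 + 3 * X) ^ n) (by ring) j
    have a2 : (X ^ 2 * (1 + 3 * X) ^ (n + 1) : ℕ[X]) = X ^ 2 * (1 + 3 * X) ^ n +
        (X ^ 3 * (1 + 3 * X) ^ n + X ^ 3 * (1 + 3 * X) ^ n + X ^ 3 * (1 + 3 * X) ^ n) := by ring
    rw [coeff_add] at a1
    rw [a2, coeff_add, coeff_add, coeff_add]
    omega
  · have := not_gd cf (by omega) c2 j
    omega

theorem upper_all {q : ℕ} (hd : ∀ v, (nb G v univ).card ≤ 3 * q + 5) (hc : CF G univ (q + 3))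
    {t : ℕ} (h3 : 3 ≤ t) (ht : t ≤ q + 3) : (3 * q + 8) * K G univ t ≤
      ((1 + 5 * X + 5 * X ^ 2) * (1 + 3 * X) ^ (q + 1) : ℕ[X]).coeff t * (univ : Finset V).card := by
  rcases q with _ | n
  · obtain rfl : t = 3 := by omega
    have a1 := upper hd hc
    have a2 : ((1 + 5 * X + 5 * X ^ 2) * (1 + 3 * X) ^ (0 + 1) : ℕ[X]) =
        1 + 8 * X + 20 * X ^ 2 + 15 * X ^ 3 := by ring
    have a3 : (1 + 8 * X + 20 * X ^ 2 + 15 * X ^ 3 : ℕ[X]).coeff 3 = 15 := by
      simp [coeff_one, coeff_X]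
    rw [a2, a3]
    omega
  obtain ⟨j, rfl⟩ : ∃ j, t = j + 1 := ⟨t - 1, by omega⟩
  have a1 := K_double (G := G) univ j
  have a2 := sum_le_sum fun v (_ : v ∈ (univ : Finset V)) => link_all hd hc v j
  rw [← mul_sum, ← a1, sum_add_distrib, sum_const, smul_eq_mul, ← mul_sum] at a2
  have a3 := count_good hd hc
  have a4 : derivative ((1 + 5 * X + 5 * X ^ 2) * (1 + 3 * X) ^ (n + 1 + 1) : ℕ[X]) =
      C (3 * (n + 1) + 8) * ((1 + 5 * X + 5 * X ^ 2) * (1 + 3 * X) ^ (n + 1)) +
        C 5 * (X ^ 2 * (1 + 3 * X) ^ (n + 1)) := by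
    simp only [derivative_mul, derivative_pow_succ, derivative_one, derivative_X,
      derivative_ofNat, map_add, map_mul, map_ofNat, map_one, Nat.cast_id]
    ring
  have a5 := congrArg (fun P => coeff P j) a4
  simp only [coeff_derivative, coeff_add, coeff_C_mul, Nat.cast_id] at a5
  generalize ((1 + 5 * X + 5 * X ^ 2) * (1 + 3 * X) ^ (n + 1 + 1) : ℕ[X]).coeff (j + 1) = c at *
  generalize ((1 + 5 * X + 5 * X ^ 2) * (1 + 3 * X) ^ (n + 1) : ℕ[X]).coeff j = b at *
  generalize (X ^ 2 * (1 + 3 * X) ^ (n + 1) : ℕ[X]).coeff j = d at *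
  generalize (∑ v, if Top G (n + 1) v then 3 else if Gd G (n + 1) (nb G v univ) then 1 else 0) = w
    at *
  generalize 3 * (n + 1) + 8 = m at *
  generalize (univ : Finset V).card = N at *
  refine Nat.le_of_mul_le_mul_left (c := 3 * (j + 1)) ?_ (by omega)
  calc 3 * (j + 1) * (m * K G univ (j + 1)) = m * (3 * ((j + 1) * K G univ (j + 1))) := by ring
    _ ≤ m * (N * (3 * b) + d * w) := Nat.mul_le_mul_left _ a2
    _ = m * (N * (3 * b)) + d * (m * w) := by ring
    _ ≤ m * (N * (3 * b)) + d * (15 * N) := by gcongr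
    _ = 3 * (m * b + 5 * d) * N := by ring
    _ = 3 * (j + 1) * (c * N) := by rw [← a5]; ring

end Pool.Agent.FS.C5Tri
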