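import Pool.Agent.FS.C5Tri.Up

/-!
Coefficientwise bounds for the clique counts of a vertex set.
-/

namespace Pool.Agent.FS.C5Tri

open Finset Polynomial Pool.Agent.Lib.MP_1b6faf_co.A1
open scoped Classical

variable {V : Type*} {G : SimpleGraph V}

/-- the clique counts of `A` are at most the coefficients of `P` -/
def Bd (G : SimpleGraph V) (A : Finset V) (P : ℕ[X]) : Prop := ∀ j, K G A j ≤ P.coeff j

theorem Bd.le {A : Finset V} {P Q : ℕ[X]} (h : Bd G A P) (R : ℕ[X]) (e : Q = P + R) : Bd G A Q :=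
  fun j => by rw [e, coeff_add]; exact (h j).trans (Nat.le_add_right _ _)

theorem Bd.mono {A B : Finset V} {P : ℕ[X]} (h : Bd G B P) (hA : A ⊆ B) : Bd G A P :=
  fun j => (K_mono j hA).trans (h j)

theorem Bd.del {A : Finset V} {P Q : ℕ[X]} {x : V} (hx : x ∈ A) (h1 : Bd G (A.erase x) P)
    (h2 : Bd G (nb G x A) Q) : Bd G A (P + X * Q) := by
  intro j
  rcases j with _ | j
  · have := h1 0
    rw [K_zero] at this ⊢
    rw [coeff_add]
    omega
  · rw [K_rec hx, coeff_add, coeff_X_mul]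
    exact Nat.add_le_add (h1 _) (h2 _)

theorem Bd.ins {W S : Finset V} {P : ℕ[X]} (h : Bd G W P) (hW : W ⊆ S) (hc : S.card ≤ W.card + 1) :
    Bd G S ((1 + X) * P) := by
  by_cases c : S ⊆ W
  · exact (h.mono c).le (X * P) (by ring)
  · obtain ⟨x, hx, hx'⟩ := not_subset.1 c
    have e : S.erase x ⊆ W := by
      refine (eq_of_subset_of_card_le (subset_erase.2 ⟨hW, hx'⟩) ?_).ge
      rw [card_erase_of_mem hx]; omega
    refine (Bd.del hx (h.mono e) (h.mono fun y hy => e ?_)).le 0 (by ring)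
    exact mem_erase.2 ⟨(mem_nb.1 hy).2.ne', (mem_nb.1 hy).1⟩

theorem M_le_mul {A : Finset V} {c : ℕ} (h : ∀ x ∈ A, (nn G x A).card ≤ c) :
    M G A ≤ A.card * c := by
  rw [M, ← smul_eq_mul]; exact sum_le_card_nsmul _ _ _ h

theorem zy1 (b : ℕ) : ∀ (a : ℕ) (A : Finset V), CF G A (a + b) → A.card ≤ a + 2 * b →
    Bd G A ((1 + X) ^ a * (1 + 2 * X) ^ b) := by
  induction b with
  | zero =>
    intro a A _ h j
    rw [pow_zero, mul_one, coeff_one_add_X_pow]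
    exact (K_le_choose A j).trans (Nat.choose_le_choose j (by omega))
  | succ b ih =>
    intro a A h hc
    have h' : CF G A (a + 1 + b) := by rwa [show a + 1 + b = a + (b + 1) by ring]
    by_cases c : A.card ≤ a + 1 + 2 * b
    · exact (ih (a + 1) A h' c).le (X * ((1 + X) ^ a * (1 + 2 * X) ^ b)) (by ring)
    · obtain ⟨x, hx, h1⟩ := h.exists_nn (by omega)
      have := card_nb_nn (G := G) hx
      refine (Bd.del hx (ih (a + 1) _ (h'.mono (erase_subset _ _)) ?_)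
        (ih a _ (CF.nb h hx) (by omega))).le 0 (by ring)
      rw [card_erase_of_mem hx]; omega

theorem zy2 (c : ℕ) : ∀ (b : ℕ) (A : Finset V), CF G A (b + c) → A.card ≤ 2 * b + 3 * c →
    Bd G A ((1 + 2 * X) ^ b * (1 + 3 * X) ^ c) := by
  induction c with
  | zero =>
    intro b A h hc
    exact (zy1 b 0 A (by simpa using h) (by omega)).le 0 (by ring)
  | succ c ih =>
    intro b A h hc
    have h' : CF G A (b + 1 + c) := by rwa [show b + 1 + c = b + (c + 1) by ring]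
    by_cases d : A.card ≤ 2 * (b + 1) + 3 * c
    · exact (ih (b + 1) A h' d).le (X * ((1 + 2 * X) ^ b * (1 + 3 * X) ^ c)) (by ring)
    · obtain ⟨x, hx, h1⟩ : ∃ x ∈ A, 2 ≤ (nn G x A).card := by
        by_contra e
        push Not at e
        have e1 := M_le_mul (G := G) (c := 1) fun x hx => Nat.lt_succ_iff.1 (e x hx)
        have e2 := (turan _ A h).1
        omega
      have := card_nb_nn (G := G) hx
      refine (Bd.del hx (ih (b + 1) _ (h'.mono (erase_subset _ _)) ?_)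
        (ih b _ (CF.nb h hx) (by omega))).le 0 (by ring)
      rw [card_erase_of_mem hx]; omega

theorem zy0 {n : ℕ} {A : Finset V} (h : CF G A n) (hc : A.card ≤ 3 * n) :
    Bd G A ((1 + 3 * X) ^ n) :=
  (zy2 n 0 A (by simpa using h) (by omega)).le 0 (by ring)

theorem zyk (b : ℕ) {n : ℕ} {A : Finset V} (h : CF G A (n + b)) (hc : A.card ≤ 3 * n + 2 * b) :
    Bd G A ((1 + 2 * X) ^ b * (1 + 3 * X) ^ n) :=
  zy2 n b A (by rwa [add_comm]) (by omega)

theorem small {A : Finset V} (h : CF G A 2) {a b : ℕ} (h1 : A.card ≤ a) (h2 : K G A 2 ≤ b) :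
    Bd G A (1 + C a * X + C b * X ^ 2) := by
  intro j
  rcases j with _ | _ | _ | j
  · simp
  · simp [K_one, h1, coeff_one]
  · simpa [coeff_one, coeff_X] using h2
  · rw [h.K_eq (by omega)]; exact Nat.zero_le _

theorem zy3 {n : ℕ} {A : Finset V} (h : CF G A (n + 2)) (hc : A.card ≤ 3 * n + 3) :
    Bd G A ((1 + 3 * X + 3 * X ^ 2) * (1 + 3 * X) ^ n) := by
  rcases n with _ | n
  · refine (small (a := 3) (b := 3) h hc ?_).le 0 (by simp)
    exact (K_le_choose A 2).trans (Nat.choose_le_choose 2 hc)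
  · exact (zyk 3 (n := n) h (by omega)).le (X ^ 3 * (1 + 3 * X) ^ n) (by ring)

theorem three {A : Finset V} {x y z : V} {P Q R : ℕ[X]} (hx : x ∈ A) (e : nn G x A = {y, z})
    (hyz : y ≠ z) (h1 : Bd G (nb G x A) P) (h2 : Bd G (nb G y (nb G x A)) Q)
    (h3 : Bd G (nb G z A) R) : Bd G A ((1 + X) * P + X * Q + X * R) := by
  have e' : ∀ w, w ∈ A ∧ w ≠ x ∧ ¬ G.Adj x w ↔ w = y ∨ w = z := fun w => by
    rw [← mem_nn, e]; simp
  obtain ⟨y1, y2, y3⟩ := (e' y).2 (Or.inl rfl)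
  obtain ⟨z1, z2, z3⟩ := (e' z).2 (Or.inr rfl)
  refine Bd.del z1 (Bd.del (x := y) (mem_erase.2 ⟨hyz, y1⟩) ?_ (h2.mono ?_)) h3
  · refine (Bd.del (x := x) (by simp [hx, y2.symm, z2.symm]) (h1.mono ?_) (h1.mono ?_)).le 0 (by ring)
    · intro w hw
      simp only [mem_erase] at hw
      refine mem_nb.2 ⟨hw.2.2.2, ?_⟩
      by_contra c
      have := (e' w).1 ⟨hw.2.2.2, hw.1, c⟩
      tauto
    · exact nb_mono _ ((erase_subset _ _).trans (erase_subset _ _))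
  · intro w hw
    obtain ⟨a1, a2⟩ := mem_nb.1 hw
    obtain ⟨a3, a4⟩ := mem_erase.1 a1
    refine mem_nb.2 ⟨mem_nb.2 ⟨a4, ?_⟩, a2⟩
    by_contra c
    rcases (e' w).1 ⟨a4, fun d => y3 (d ▸ a2.symm), c⟩ with d | d
    · exact a2.ne' d
    · exact a3 d

theorem twin {A : Finset V} {x y z : V} {P : ℕ[X]} (hx : x ∈ A) (e : nn G x A = {y, z})
    (hyz : y ≠ z) (hn : ¬ G.Adj y z) (h1 : Bd G (nb G x A) P) : Bd G A ((1 + 3 * X) * P) := by
  have e' : ∀ w, w ∈ A ∧ w ≠ x ∧ ¬ G.Adj x w ↔ w = y ∨ w = z := fun w => by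
    rw [← mem_nn, e]; simp
  refine (three hx e hyz h1 (h1.mono (nb_subset _ _)) (h1.mono fun w hw => ?_)).le 0 (by ring)
  obtain ⟨a1, a2⟩ := mem_nb.1 hw
  refine mem_nb.2 ⟨a1, ?_⟩
  by_contra c
  rcases (e' w).1 ⟨a1, fun d => ((e' z).2 (Or.inr rfl)).2.2 (d ▸ a2.symm), c⟩ with d | d
  · exact hn (d ▸ a2.symm)
  · exact a2.ne' d

theorem cherry {A : Finset V} {x y z : V} {P Q R T : ℕ[X]} (hx : x ∈ A) (e : nn G x A = {y, z})
    (hyz : G.Adj y z) (h1 : Bd G (nb G x A) P) (h2 : Bd G (nb G y (nb G x A)) Q)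
    (h3 : Bd G (nb G z (nb G x A)) R) (h4 : Bd G (nb G y (nb G z (nb G x A))) T) :
    Bd G A ((1 + X) * P + X * Q + X * (R + X * T)) := by
  have e' : ∀ w, w ∈ A ∧ w ≠ x ∧ ¬ G.Adj x w ↔ w = y ∨ w = z := fun w => by
    rw [← mem_nn, e]; simp
  have s1 : (nb G z A).erase y ⊆ nb G z (nb G x A) := by
    intro w hw
    obtain ⟨a3, a0⟩ := mem_erase.1 hw
    obtain ⟨a1, a2⟩ := mem_nb.1 a0
    refine mem_nb.2 ⟨mem_nb.2 ⟨a1, ?_⟩, a2⟩
    by_contra c
    rcases (e' w).1 ⟨a1, fun d => ((e' z).2 (Or.inr rfl)).2.2 (d ▸ a2.symm), c⟩ with d | d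
    · exact a3 d
    · exact a2.ne' d
  refine three hx e hyz.ne h1 h2 (Bd.del (x := y) (mem_nb.2 ⟨((e' y).2 (Or.inl rfl)).1, hyz.symm⟩)
    (h3.mono s1) (h4.mono fun w hw => ?_))
  obtain ⟨a1, a2⟩ := mem_nb.1 hw
  exact mem_nb.2 ⟨s1 (mem_erase.2 ⟨a2.ne', a1⟩), a2⟩

/-- the facts about a vertex with two adjacent non-neighbours when nobody misses more than two -/
theorem cherry_facts {A : Finset V} {x y z : V} {s : ℕ} (hx : x ∈ A) (e : nn G x A = {y, z})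
    (hyz : G.Adj y z) (h : CF G A (s + 2)) (h2 : ∀ w ∈ A, (nn G w A).card ≤ 2) :
    CF G (nb G y (nb G z (nb G x A))) s ∧ (nb G y (nb G z (nb G x A))).card ≤ 3 * s ∧
      (nb G x A).card ≤ (nb G y (nb G x A)).card + 1 ∧
      (nb G x A).card ≤ (nb G z (nb G x A)).card + 1 ∧
      (nb G z (nb G x A)).card ≤ (nb G y (nb G z (nb G x A))).card + 1 ∧
      (nb G y (nb G x A)).card ≤ (nb G y (nb G z (nb G x A))).card + 1 := by
  have e' : ∀ w, w ∈ A ∧ w ≠ x ∧ ¬ G.Adj x w ↔ w = y ∨ w = z := fun w => by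
    rw [← mem_nn, e]; simp
  obtain ⟨y1, y2, y3⟩ := (e' y).2 (Or.inl rfl)
  obtain ⟨z1, z2, z3⟩ := (e' z).2 (Or.inr rfl)
  have key : ∀ w ∈ A, w ≠ x → ¬ G.Adj x w → ∀ S ⊆ nb G x A, S.card ≤ (nb G w S).card + 1 := by
    intro w w1 w2 w3 S hS
    have a1 := card_nb_nn' (G := G) (u := w) (A := S) fun c => w3 (mem_nb.1 (hS c)).2
    have a2 : insert x (nn G w S) ⊆ nn G w A :=
      insert_subset (mem_nn.2 ⟨hx, w2.symm, fun c => w3 c.symm⟩)
        (nn_mono _ (hS.trans (nb_subset _ _)))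
    have a3 := card_le_card a2
    rw [card_insert_of_notMem fun c => G.irrefl (mem_nb.1 (hS (nn_subset _ _ c))).2] at a3
    have := h2 w w1
    omega
  have cf : CF G (nb G y (nb G z (nb G x A))) s :=
    ((h.nb z1).nb (mem_nb.2 ⟨y1, hyz.symm⟩)).mono (nb_mono _ (nb_mono _ (nb_subset _ _)))
  have sub : nb G y (nb G z (nb G x A)) ⊆ A :=
    (nb_subset _ _).trans ((nb_subset _ _).trans (nb_subset _ _))
  have e2 : nb G y (nb G z (nb G x A)) = nb G z (nb G y (nb G x A)) := by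
    ext w; simp only [mem_nb]; tauto
  refine ⟨cf, ?_, key y y1 y2 y3 _ Subset.rfl, key z z1 z2 z3 _ Subset.rfl,
    key y y1 y2 y3 _ (nb_subset _ _), e2 ▸ key z z1 z2 z3 _ (nb_subset _ _)⟩
  have a1 := (turan _ _ cf).1
  have a2 := M_le_mul (G := G) (c := 2) fun w hw =>
    (card_le_card (nn_mono w sub)).trans (h2 w (sub hw))
  omega

/-- the facts about an independent triple when nobody misses more than two -/
theorem twin_facts {A : Finset V} {x y z : V} (hx : x ∈ A) (e : nn G x A = {y, z})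
    (hyz : y ≠ z) (hn : ¬ G.Adj y z) (h2 : ∀ w ∈ A, (nn G w A).card ≤ 2) :
    (∀ w ∈ nb G x A, nn G w (nb G x A) = nn G w A) ∧ M G A ≤ M G (nb G x A) + 6 := by
  have e' : ∀ w, w ∈ A ∧ w ≠ x ∧ ¬ G.Adj x w ↔ w = y ∨ w = z := fun w => by
    rw [← mem_nn, e]; simp
  obtain ⟨y1, y2, y3⟩ := (e' y).2 (Or.inl rfl)
  obtain ⟨z1, z2, z3⟩ := (e' z).2 (Or.inr rfl)
  have key : ∀ a b, a ∈ A → b ∈ A → a ≠ x → ¬ G.Adj x a → b ≠ x → ¬ G.Adj x b → a ≠ b →
      ¬ G.Adj a b → ∀ w ∈ nb G x A, G.Adj w a := by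
    intro a b a1 b1 a2 a3 b2 b3 ab nab w hw
    obtain ⟨w1, w2⟩ := mem_nb.1 hw
    by_contra c
    have s : ({x, b, w} : Finset V) ⊆ nn G a A := by
      intro t ht
      simp only [mem_insert, mem_singleton] at ht
      rcases ht with rfl | rfl | rfl
      · exact mem_nn.2 ⟨hx, a2.symm, fun d => a3 d.symm⟩
      · exact mem_nn.2 ⟨b1, ab.symm, nab⟩
      · exact mem_nn.2 ⟨w1, fun d => a3 (d ▸ w2), fun d => c d.symm⟩
    have s2 := card_le_card s
    rw [card_eq_three.2 ⟨x, b, w, b2.symm, w2.ne, fun d => b3 (d ▸ w2), rfl⟩] at s2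
    have := h2 a a1
    omega
  have k1 : ∀ w ∈ nb G x A, nn G w (nb G x A) = nn G w A := by
    intro w hw
    refine Subset.antisymm (nn_mono _ (nb_subset _ _)) fun t ht => ?_
    obtain ⟨t1, t2, t3⟩ := mem_nn.1 ht
    refine mem_nn.2 ⟨mem_nb.2 ⟨t1, ?_⟩, t2, t3⟩
    by_contra c
    rcases (e' t).1 ⟨t1, fun d => t3 (d ▸ (mem_nb.1 hw).2.symm), c⟩ with rfl | rfl
    · exact t3 (key _ _ y1 z1 y2 y3 z2 z3 hyz hn w hw)
    · exact t3 (key _ _ z1 y1 z2 z3 y2 y3 hyz.symm (fun d => hn d.symm) w hw)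
  refine ⟨k1, ?_⟩
  have c1 := card_nb_nn (G := G) hx
  rw [e, card_pair hyz] at c1
  have c2 := sum_le_card_nsmul (A \ nb G x A) _ 2 fun w hw => h2 w (mem_sdiff.1 hw).1
  rw [card_sdiff_of_subset (nb_subset _ _), smul_eq_mul] at c2
  rw [M, ← sum_sdiff (nb_subset (G := G) x A), M, sum_congr rfl fun w hw => congrArg card (k1 w hw)]
  omega

end Pool.Agent.FS.C5Tri
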