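import Pool.Agent.FS.C5Tri.Loc

/-!
Discharging for cliques of every size.
-/

namespace Pool.Agent.FS.C5Tri

open Finset Polynomial Pool.Agent.Lib.MP_1b6faf_co.A1
open scoped Classical

variable {V : Type*} {G : SimpleGraph V}

theorem turan3 (s : ℕ) : ∀ A : Finset V, CF G A s → 6 * A.card ≤ M G A + 12 * s := by
  induction s with
  | zero =>
    intro A h
    have := (turan 0 A h).1
    have : A = ∅ := by
      rw [eq_empty_iff_forall_notMem]
      intro x hx
      have := h {x} (by simpa using hx) (by simp)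
      simp at this
    subst this
    simp
  | succ s ih =>
    intro A h
    rcases A.eq_empty_or_nonempty with rfl | hA
    · simp
    obtain ⟨u, hu, hmin⟩ := exists_min_image A (fun x => (nn G x A).card) hA
    have i1 := ih _ (h.nb hu)
    have hc := card_nb_nn (G := G) hu
    have hBA : nb G u A ⊆ A := nb_subset _ _
    have e1 : M G (nb G u A) ≤ ∑ x ∈ nb G u A, (nn G x A).card :=
      sum_le_sum fun x _ => card_le_card (nn_mono x hBA)
    have e2 := card_nsmul_le_sum (A \ nb G u A) _ _ fun x hx => hmin x (mem_sdiff.1 hx).1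
    rw [card_sdiff_of_subset hBA, smul_eq_mul,
      show A.card - (nb G u A).card = (nn G u A).card + 1 by omega] at e2
    have e0 : M G A = ∑ x ∈ A \ nb G u A, (nn G x A).card + ∑ x ∈ nb G u A, (nn G x A).card :=
      (sum_sdiff hBA).symm
    generalize (nn G u A).card = m at *
    have e3 : 6 * (m + 1) ≤ (m + 1) * m + 12 := by
      rcases m with _ | _ | _ | m
      · omega
      · omega
      · omega
      · nlinarith
    omega

theorem M_mono {A B : Finset V} (h : A ⊆ B) : M G A ≤ M G B :=
  (sum_le_sum fun x _ => card_le_card (nn_mono x h)).trans (sum_le_sum_of_subset h)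

theorem M_nb {A : Finset V} {x : V} (hx : x ∈ A) :
    M G (nb G x A) + 2 * (nn G x A).card ≤ M G A := by
  have : nb G x A ⊆ A.erase x := fun y hy => mem_erase.2 ⟨(mem_nb.1 hy).2.ne', (mem_nb.1 hy).1⟩
  have := M_mono (G := G) this
  rw [M_erase hx]
  omega

theorem low_le {s : ℕ} {B : Finset V} (h : CF G B s) (hc : B.card = 3 * s) (hM : M G B ≤ 6 * s + 2) :
    (B.filter fun w => (nn G w B).card ≤ 1).card ≤ 2 := by
  by_contra c
  obtain ⟨x, hx⟩ := card_pos.1 (show 0 < (B.filter fun w => (nn G w B).card ≤ 1).card by omega)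
  obtain ⟨x1, x2⟩ := mem_filter.1 hx
  obtain ⟨y, hy, hy'⟩ := exists_mem_notMem_of_card_lt_card (s := insert x (nn G x B))
    (t := B.filter fun w => (nn G w B).card ≤ 1) ((card_insert_le _ _).trans_lt (by omega))
  obtain ⟨y1, y2⟩ := mem_filter.1 hy
  have y3 : y ∈ nb G x B := by
    refine mem_nb.2 ⟨y1, ?_⟩
    by_contra d
    exact hy' (mem_insert.2 (by
      by_cases e : y = x
      · exact Or.inl e
      · exact Or.inr (mem_nn.2 ⟨y1, e, d⟩)))
  have y4 := card_le_card (nn_mono (G := G) y (nb_subset (G := G) x B))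
  have a1 := card_nb_nn (G := G) x1
  have a2 := card_nb_nn (G := G) y3
  have a3 := M_nb (G := G) x1
  have a4 := M_nb (G := G) y3
  have s2 : 2 ≤ s := by
    have := h {x, y} (insert_subset x1 (singleton_subset_iff.2 y1)) (by
      simpa using fun _ => (mem_nb.1 y3).2)
    rwa [card_pair (mem_nb.1 y3).2.ne] at this
  obtain ⟨s, rfl⟩ : ∃ r, s = r + 2 := ⟨s - 2, by omega⟩
  have a5 := turan3 s _ (CF.nb (CF.nb h x1) y3)
  omega

theorem gd_many {q : ℕ} {A : Finset V} (h : CF G A (q + 2)) (hg : Gd G q A) :
    3 * q + 5 ≤ (A.filter fun w => (nn G w A).card = 2).card + 12 := by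
  obtain ⟨h1, h2, p, p1, r, r1, p2, r2⟩ := hg
  have a1 := card_nb_nn (G := G) p1
  have a2 := M_nb (G := G) p1
  rw [p2, card_singleton] at a1 a2
  set B := nb G p A with hB
  have same : ∀ w ∈ B, nn G w B = nn G w A := by
    intro w hw
    refine Subset.antisymm (nn_mono _ (nb_subset _ _)) fun t ht => ?_
    obtain ⟨t1, t2, t3⟩ := mem_nn.1 ht
    obtain ⟨w1, w2⟩ := mem_nb.1 hw
    refine mem_nn.2 ⟨mem_nb.2 ⟨t1, ?_⟩, t2, t3⟩
    by_contra c
    have b1 : t ∈ nn G p A := mem_nn.2 ⟨t1, fun d => t3 (d ▸ w2.symm), c⟩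
    rw [p2, mem_singleton] at b1
    subst b1
    have b2 : w ∈ nn G t A := mem_nn.2 ⟨w1, t2.symm, fun d => t3 d.symm⟩
    rw [r2, mem_singleton] at b2
    exact w2.ne' b2
  have a3 := low_le (s := q + 1) (B := B) (CF.nb h p1) (by omega) (by omega)
  have a4 : 3 * B.card ≤ M G B + (B.filter fun w => (nn G w B).card = 2).card +
      3 * (B.filter fun w => (nn G w B).card ≤ 1).card := by
    rw [M, card_filter, card_filter, mul_sum, ← sum_add_distrib, ← sum_add_distrib, mul_comm,
      ← smul_eq_mul, ← sum_const]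
    refine sum_le_sum fun x _ => ?_
    split_ifs <;> omega
  have a5 : (B.filter fun w => (nn G w B).card = 2) ⊆ A.filter fun w => (nn G w A).card = 2 :=
    fun w hw => mem_filter.2 ⟨nb_subset _ _ (mem_filter.1 hw).1, by
      rw [← same w (mem_filter.1 hw).1]; exact (mem_filter.1 hw).2⟩
  have a6 := card_le_card a5
  omega

variable [Fintype V]

theorem Top.gd {q : ℕ} {v : V} (h : Top G q v) : Gd G q (nb G v univ) := by
  obtain ⟨h1, h2, h3⟩ := h
  have a6 := count_one h3
  obtain ⟨p, hp⟩ := card_pos.1 (show 0 < ((nb G v univ).filter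
    fun w => (nn G w (nb G v univ)).card = 1).card by omega)
  obtain ⟨p1, p2⟩ := mem_filter.1 hp
  exact ⟨h1, by omega, p, p1, pair_of_str h3 p1 p2⟩

theorem not_good {q : ℕ} (hd : ∀ v, (nb G v univ).card ≤ 3 * q + 5) (hc : CF G univ (q + 3))
    {v y : V} (h : Gd G q (nb G v univ)) (hy : y ∈ PP G v) : ¬ Gd G q (nb G y univ) := by
  rintro ⟨t1, t2, p', p'1, r', r'1, p'2, r'2⟩
  obtain ⟨h1, -, p, p1, r, r1, p2, r2⟩ := h
  obtain ⟨y1, y2⟩ := mem_filter.1 hy
  have hvy : G.Adj v y := (mem_nb.1 y1).2
  have v1 : v ∈ nb G y univ := mem_nb.2 ⟨mem_univ _, hvy.symm⟩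
  have e1 : nb G v (nb G y univ) = nb G y (nb G v univ) := by
    ext z; simp only [mem_nb]; tauto
  have c1 := card_nb_nn (G := G) v1
  have c2 := card_nb_nn (G := G) y1
  rw [← e1] at c2
  have key : ∀ a b, a ∈ nb G v univ → nn G a (nb G v univ) = {b} → nn G b (nb G v univ) = {a} →
      a ∈ nb G v (nb G y univ) ∧ 1 ≤ (nn G a (nn G v (nb G y univ))).card := by
    intro a b a1 a2 a3
    have hva := (mem_nb.1 a1).2
    have hya : G.Adj y a := by
      by_contra c
      have hne : y ≠ a := fun e => by rw [e, a2] at y2; simp at y2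
      have b1 : y ∈ nn G a (nb G v univ) := mem_nn.2 ⟨y1, hne, fun e => c e.symm⟩
      rw [a2, mem_singleton] at b1
      rw [b1, a3] at y2
      simp at y2
    refine ⟨mem_nb.2 ⟨mem_nb.2 ⟨mem_univ _, hya⟩, hva⟩, ?_⟩
    have b2 := card_nb_nn' (G := G) (u := a) (A := nn G v (nb G y univ)) fun c => (mem_nn.1 c).2.2 hva
    have b3 := card_nb_nn (G := G) a1
    rw [a2, card_singleton] at b3
    have hsub : nb G a (nb G v univ) ∪ insert v (nb G a (nn G v (nb G y univ))) ⊆ nb G a univ := by
      intro z hz
      refine mem_nb.2 ⟨mem_univ _, ?_⟩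
      rcases mem_union.1 hz with c | c
      · exact (mem_nb.1 c).2
      · rcases mem_insert.1 c with rfl | c
        · exact hva.symm
        · exact (mem_nb.1 c).2
    have hdis : Disjoint (nb G a (nb G v univ)) (insert v (nb G a (nn G v (nb G y univ)))) := by
      rw [disjoint_left]
      intro z b4 b5
      have b6 := (mem_nb.1 (mem_nb.1 b4).1).2
      rcases mem_insert.1 b5 with rfl | c
      · exact G.irrefl b6
      · exact (mem_nn.1 (mem_nb.1 c).1).2.2 b6
    have c4 := card_le_card hsub
    rw [card_union_of_disjoint hdis,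
      card_insert_of_notMem (fun c => (mem_nn.1 (mem_nb.1 c).1).2.1 rfl)] at c4
    have := hd a
    omega
  obtain ⟨k1, k2⟩ := key p r p1 p2 r2
  obtain ⟨k3, k4⟩ := key r p r1 r2 p2
  have hr : r ∈ nn G p (nb G v univ) := by rw [p2]; simp
  obtain ⟨-, hne, hna⟩ := mem_nn.1 hr
  have sub : nb G v (nb G y univ) ⊆ nb G v univ := nb_mono _ (subset_univ _)
  have p3 : nn G p (nb G v (nb G y univ)) = {r} :=
    Subset.antisymm (p2 ▸ nn_mono p sub) (singleton_subset_iff.2 (mem_nn.2 ⟨k3, hne, hna⟩))
  have r3 : p ∈ nn G r (nb G v (nb G y univ)) := mem_nn.2 ⟨k1, hne.symm, fun c => hna c.symm⟩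
  have c3 := card_nb_nn (G := G) k1
  have c4 := M_nb (G := G) k1
  rw [p3, card_singleton] at c3 c4
  have cf : CF G (nb G p (nb G v (nb G y univ))) q := CF.nb (CF.nb (CF.nb hc (mem_univ y)) v1) k1
  obtain ⟨d1, d2⟩ := turan _ _ cf
  have hdis : Disjoint (insert v (nn G v (nb G y univ))) (nb G v (nb G y univ)) := by
    rw [disjoint_left]
    intro z b1 b2
    rcases mem_insert.1 b1 with rfl | c
    · exact G.irrefl (mem_nb.1 b2).2
    · exact (mem_nn.1 c).2.2 (mem_nb.1 b2).2
  have hun : insert v (nn G v (nb G y univ)) ∪ nb G v (nb G y univ) = (nb G y univ) := by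
    refine Subset.antisymm (union_subset (insert_subset v1 (nn_subset _ _)) (nb_subset _ _))
      fun z hz => ?_
    by_cases c : G.Adj v z
    · exact mem_union_right _ (mem_nb.2 ⟨hz, c⟩)
    · by_cases d : z = v
      · exact mem_union_left _ (mem_insert.2 (Or.inl d))
      · exact mem_union_left _ (mem_insert_of_mem (mem_nn.2 ⟨hz, d, c⟩))
  have d3 := M_union (G := G) hdis
  rw [hun] at d3
  have d4 := M_nb (G := G) (mem_insert_self v (nn G v (nb G y univ)))
  have d5 : (nn G v (nb G y univ)).card ≤ (nn G v (insert v (nn G v (nb G y univ)))).card :=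
    card_le_card fun z hz => mem_nn.2 ⟨mem_insert_of_mem hz, (mem_nn.1 hz).2⟩
  have d6 : (nn G p (insert v (nn G v (nb G y univ)))).card + (nn G r (insert v (nn G v (nb G y univ)))).card ≤
      ∑ u ∈ nb G v (nb G y univ), (nn G u (insert v (nn G v (nb G y univ)))).card := by
    rw [← sum_pair (f := fun u => (nn G u (insert v (nn G v (nb G y univ)))).card) hne.symm]
    exact sum_le_sum_of_subset (insert_subset k1 (singleton_subset_iff.2 k3))
  have d7 := card_le_card (nn_mono (G := G) p (subset_insert v (nn G v (nb G y univ))))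
  have d8 := card_le_card (nn_mono (G := G) r (subset_insert v (nn G v (nb G y univ))))
  have st := d2 (by omega)
  have d9 := count_one st
  have d10 : ((nb G p (nb G v (nb G y univ))).filter
      fun w => (nn G w (nb G p (nb G v (nb G y univ)))).card = 1) = ∅ := card_eq_zero.1 (by omega)
  have two : ∀ a ∈ nb G v (nb G y univ), 1 ≤ (nn G a (nn G v (nb G y univ))).card → 1 ≤ (nn G a (nb G v (nb G y univ))).card →
      2 ≤ (nn G a (nb G y univ)).card := by
    intro a _ b1 b2
    have b3 := card_nn_union (G := G) a hdis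
    rw [hun] at b3
    have := card_le_card (nn_mono (G := G) a (subset_insert v (nn G v (nb G y univ))))
    omega
  have one : (nn G p' (nb G y univ)).card = 1 := by rw [p'2, card_singleton]
  have one' : (nn G r' (nb G y univ)).card = 1 := by rw [r'2, card_singleton]
  by_cases f1 : G.Adj v p'
  · have f2 : p' ∈ nb G v (nb G y univ) := mem_nb.2 ⟨p'1, f1⟩
    by_cases f3 : G.Adj p p'
    · have f4 : p' ∈ nb G p (nb G v (nb G y univ)) := mem_nb.2 ⟨f2, f3⟩
      have f5 := card_le_card (nn_mono (G := G) p'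
        ((nb_subset (G := G) p (nb G v (nb G y univ))).trans (nb_subset (G := G) v (nb G y univ))))
      rcases (st p' f4).1 with c | c
      · have : p' ∈ ((nb G p (nb G v (nb G y univ))).filter
          fun w => (nn G w (nb G p (nb G v (nb G y univ)))).card = 1) := mem_filter.2 ⟨f4, c⟩
        rw [d10] at this
        simp at this
      · omega
    · by_cases f4 : p' = p
      · have := two p k1 k2 (by rw [p3]; simp)
        rw [f4] at one
        omega
      · have f5 : p' ∈ nn G p (nb G v (nb G y univ)) := mem_nn.2 ⟨f2, f4, f3⟩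
        rw [p3, mem_singleton] at f5
        have := two r k3 k4 (card_pos.2 ⟨p, r3⟩)
        rw [f5] at one
        omega
  · by_cases f2 : v = p'
    · rw [← f2] at one
      omega
    · have f3 : v ∈ nn G p' (nb G y univ) := mem_nn.2 ⟨v1, f2, fun c => f1 c.symm⟩
      rw [p'2, mem_singleton] at f3
      rw [← f3] at one'
      omega

theorem few_good {q : ℕ} (hd : ∀ v, (nb G v univ).card ≤ 3 * q + 5) (hc : CF G univ (q + 3))
    {v y : V} (h : Gd G q (nb G v univ)) (hy : y ∈ PP G v) :
    (nb G y (univ.filter fun w => Gd G q (nb G w univ))).card + (PP G v).card ≤ 3 * q + 8 := by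
  obtain ⟨y1, y2⟩ := mem_filter.1 hy
  have c2 := card_nb_nn (G := G) y1
  have hPA : PP G v ⊆ nb G v univ := filter_subset _ _
  have e := union_sdiff_of_subset hPA
  have e2 := card_nb_union (G := G) y (disjoint_sdiff (s := PP G v) (t := nb G v univ))
  rw [e] at e2
  have e3 := card_le_card (nb_subset (G := G) y (nb G v univ \ PP G v))
  have e4 := card_sdiff_add_card_eq_card hPA
  have hdis : Disjoint (PP G v) (univ.filter fun w => Gd G q (nb G w univ)) := by
    rw [disjoint_left]
    intro z b1 b2
    exact not_good hd hc h b1 (mem_filter.1 b2).2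
  have a2 := card_nb_union (G := G) y hdis
  have a3 := card_le_card (nb_mono (G := G) y
    (subset_univ (PP G v ∪ univ.filter fun w => Gd G q (nb G w univ))))
  have a4 := hd y
  have a5 := h.1
  omega

theorem count_good {q : ℕ} (hd : ∀ v, (nb G v univ).card ≤ 3 * q + 5) (hc : CF G univ (q + 3)) :
    (3 * q + 8) * ∑ v, (if Top G q v then 3 else if Gd G q (nb G v univ) then 1 else 0) ≤
      15 * (univ : Finset V).card := by
  set wt : V → ℕ := fun v => if Top G q v then 3 else if Gd G q (nb G v univ) then 1 else 0 with hw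
  set C := univ.filter fun w => Gd G q (nb G w univ) with hC
  have a1 : ∀ y, (∑ v, if y ∈ PP G v then wt v else 0) + (if y ∈ C then 15 else 0) ≤ 15 := by
    intro y
    by_cases c : ∃ v, Gd G q (nb G v univ) ∧ y ∈ PP G v
    · have b0 : y ∉ C := fun d => by
        obtain ⟨v, h1, h2⟩ := c
        exact not_good hd hc h1 h2 (mem_filter.1 d).2
      rw [if_neg b0, add_zero]
      have b1 : ∀ k, (∀ v, y ∈ PP G v → wt v ≤ k) →
          (∑ v, if y ∈ PP G v then wt v else 0) ≤ (nb G y C).card * k := by
        intro k hk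
        have b9 : (nb G y C).card * k = ∑ v, if v ∈ nb G y C then k else 0 := by
          rw [sum_ite_mem_eq, sum_const, smul_eq_mul]
        rw [b9]
        refine sum_le_sum fun v _ => ?_
        by_cases d1 : y ∈ PP G v
        · rw [if_pos d1]
          by_cases d2 : Gd G q (nb G v univ)
          · rw [if_pos (show v ∈ nb G y C from mem_nb.2 ⟨mem_filter.2 ⟨mem_univ _, d2⟩,
              (mem_nb.1 (mem_filter.1 d1).1).2.symm⟩)]
            exact hk v d1
          · have : wt v = 0 := by
              simp only [hw]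
              rw [if_neg fun t => d2 (Top.gd t), if_neg d2]
            omega
        · rw [if_neg d1]
          exact Nat.zero_le _
      by_cases d : ∃ v, Top G q v ∧ y ∈ PP G v
      · obtain ⟨v, h1, h2⟩ := d
        have b2 := few_good hd hc h1.gd h2
        have b3 := b1 3 fun v _ => by simp only [hw]; split_ifs <;> omega
        rw [card_PP h1, ← hC] at b2
        omega
      · obtain ⟨v, h1, h2⟩ := c
        have b2 := few_good hd hc h1 h2
        have b3 := b1 1 fun v hv => by
          simp only [hw]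
          rw [if_neg fun t => d ⟨v, t, hv⟩]
          split_ifs <;> omega
        have b4 : 3 * q + 5 ≤ (PP G v).card + 12 := gd_many (CF.nb hc (mem_univ v)) h1
        rw [← hC] at b2
        omega
    · rw [sum_eq_zero, zero_add]
      · split_ifs <;> omega
      · intro v _
        split_ifs with d
        · have d2 : ¬ Gd G q (nb G v univ) := fun t => c ⟨v, t, d⟩
          simp only [hw]
          rw [if_neg fun t => d2 (Top.gd t), if_neg d2]
        · rfl
  have a2 := sum_le_sum fun y (_ : y ∈ (univ : Finset V)) => a1 y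
  rw [sum_add_distrib, sum_comm, ← sum_add_distrib, sum_const, smul_eq_mul, mul_comm] at a2
  refine le_trans ?_ a2
  rw [mul_sum]
  refine sum_le_sum fun v _ => ?_
  rw [sum_ite_mem_eq, sum_const, smul_eq_mul]
  simp only [hw]
  by_cases d : Top G q v
  · rw [if_pos d, card_PP d, if_pos (show v ∈ C from mem_filter.2 ⟨mem_univ _, d.gd⟩)]
    omega
  · rw [if_neg d]
    by_cases d2 : Gd G q (nb G v univ)
    · have b4 : 3 * q + 5 ≤ (PP G v).card + 12 := gd_many (CF.nb hc (mem_univ v)) d2
      rw [if_pos d2, if_pos (show v ∈ C from mem_filter.2 ⟨mem_univ _, d2⟩)]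
      omega
    · rw [if_neg d2]
      omega

end Pool.Agent.FS.C5Tri
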