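import Pool.Agent.FS.C5Tri.Bd

/-!
Second best clique counts for sets of `3 s - 1` and `3 s - 2` vertices without a clique on `s + 1`.
-/

namespace Pool.Agent.FS.C5Tri

open Finset Polynomial Pool.Agent.Lib.MP_1b6faf_co.A1
open scoped Classical

variable {V : Type*} {G : SimpleGraph V}

theorem reg2 (n : ℕ) : ∀ A : Finset V, CF G A (n + 2) → A.card = 3 * n + 5 →
    (∀ w ∈ A, (nn G w A).card = 2) → Bd G A ((1 + 5 * X + 5 * X ^ 2) * (1 + 3 * X) ^ n) := by
  have ch : ∀ (n : ℕ) (A : Finset V) (x y z : V), CF G A (n + 2) → A.card = 3 * n + 5 →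
      (∀ w ∈ A, (nn G w A).card = 2) → x ∈ A → nn G x A = {y, z} → G.Adj y z →
      Bd G A ((1 + 5 * X + 5 * X ^ 2) * (1 + 3 * X) ^ n) := by
    intro n A x y z h hc h2 hx e hyz
    obtain ⟨f1, f2, f3, f4, f5, f6⟩ := cherry_facts hx e hyz h fun w hw => (h2 w hw).le
    have c1 := card_nb_nn (G := G) hx
    rw [h2 x hx] at c1
    have w := zy0 f1 f2
    have e2 : nb G y (nb G z (nb G x A)) ⊆ nb G y (nb G x A) := nb_mono _ (nb_subset _ _)
    exact (cherry hx e hyz (zyk 1 (n := n) (CF.nb h hx) (by omega)) (w.ins e2 f6)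
      (w.ins (nb_subset _ _) f5) w).le 0 (by ring)
  induction n with
  | zero =>
    intro A h hc h2
    obtain ⟨x, hx⟩ := card_pos.1 (show 0 < A.card by omega)
    obtain ⟨y, z, hyz, e⟩ := card_eq_two.1 (h2 x hx)
    by_cases a : G.Adj y z
    · exact ch 0 A x y z h hc h2 hx e a
    · exfalso
      have k := (twin_facts hx e hyz a fun w hw => (h2 w hw).le).1
      have c1 := card_nb_nn (G := G) hx
      rw [h2 x hx] at c1
      obtain ⟨w, hw⟩ := card_pos.1 (show 0 < (nb G x A).card by omega)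
      have c2 := card_nb_nn (G := G) hw
      rw [k w hw, h2 w (nb_subset _ _ hw)] at c2
      omega
  | succ n ih =>
    intro A h hc h2
    obtain ⟨x, hx⟩ := card_pos.1 (show 0 < A.card by omega)
    obtain ⟨y, z, hyz, e⟩ := card_eq_two.1 (h2 x hx)
    by_cases a : G.Adj y z
    · exact ch _ A x y z h hc h2 hx e a
    · have k := (twin_facts hx e hyz a fun w hw => (h2 w hw).le).1
      have c1 := card_nb_nn (G := G) hx
      rw [h2 x hx] at c1
      exact (twin hx e hyz a (ih _ (CF.nb h hx) (by omega) fun w hw => by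
        rw [k w hw]; exact h2 w (nb_subset _ _ hw))).le 0 (by ring)

theorem sec_le2 (n : ℕ) : ∀ A : Finset V, CF G A (n + 3) → A.card = 3 * n + 7 →
    6 * n + 12 ≤ M G A → (∀ w ∈ A, (nn G w A).card ≤ 2) →
    Bd G A ((1 + 7 * X + 16 * X ^ 2 + 11 * X ^ 3) * (1 + 3 * X) ^ n) := by
  have ex : ∀ (n : ℕ) (A : Finset V), A.card = 3 * n + 7 → 6 * n + 12 ≤ M G A →
      (∀ w ∈ A, (nn G w A).card ≤ 2) → ∃ x ∈ A, (nn G x A).card = 2 := by
    intro n A hc hM h2
    by_contra c
    push Not at c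
    have := M_le_mul (G := G) (c := 1) fun w hw => by have := c w hw; have := h2 w hw; omega
    omega
  have ch : ∀ (n : ℕ) (A : Finset V) (x y z : V), CF G A (n + 3) → A.card = 3 * n + 7 →
      (∀ w ∈ A, (nn G w A).card ≤ 2) → x ∈ A → nn G x A = {y, z} → G.Adj y z →
      Bd G A ((1 + 7 * X + 16 * X ^ 2 + 11 * X ^ 3) * (1 + 3 * X) ^ n) := by
    intro n A x y z h hc h2 hx e hyz
    obtain ⟨f1, f2, f3, f4, f5, f6⟩ := cherry_facts (s := n + 1) hx e hyz h h2
    have c1 := card_nb_nn (G := G) hx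
    rw [e, card_pair hyz.ne] at c1
    have e2 : nb G y (nb G z (nb G x A)) ⊆ nb G y (nb G x A) := nb_mono _ (nb_subset _ _)
    by_cases d : (nb G y (nb G z (nb G x A))).card ≤ 3 * n + 2
    · have w := zyk 1 (n := n) f1 (by omega)
      exact (cherry hx e hyz (zyk 2 (n := n) (CF.nb h hx) (by omega)) (w.ins e2 f6)
        (w.ins (nb_subset _ _) f5) w).le ((X ^ 2 + X ^ 3) * (1 + 3 * X) ^ n) (by ring)
    · have w := zy0 f1 f2
      have wb := w.ins ((nb_subset _ _).trans (nb_subset _ _)) (show (nb G x A).card ≤ _ by omega)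
      by_cases d2 : nb G y (nb G x A) ⊆ nb G y (nb G z (nb G x A))
      · exact (cherry hx e hyz wb (w.mono d2) (w.ins (nb_subset _ _) f5) w).le
          ((X ^ 2 + 2 * X ^ 3) * (1 + 3 * X) ^ n) (by ring)
      · have d3 : nb G z (nb G x A) ⊆ nb G y (nb G z (nb G x A)) := by
          refine (eq_of_subset_of_card_le (nb_subset _ _) ?_).ge
          by_contra d4
          have d5 : nb G z (nb G x A) = nb G x A :=
            eq_of_subset_of_card_le (nb_subset _ _) (by omega)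
          rw [d5] at d2
          exact d2 Subset.rfl
        exact (cherry hx e hyz wb (w.ins e2 f6) (w.mono d3) w).le
          ((X ^ 2 + 2 * X ^ 3) * (1 + 3 * X) ^ n) (by ring)
  induction n with
  | zero =>
    intro A h hc hM h2
    obtain ⟨x, hx, hx2⟩ := ex 0 A hc hM h2
    obtain ⟨y, z, hyz, e⟩ := card_eq_two.1 hx2
    by_cases a : G.Adj y z
    · exact ch 0 A x y z h hc h2 hx e a
    · have k := (twin_facts hx e hyz a h2).2
      have c1 := card_nb_nn (G := G) hx
      have c2 := K_two (G := G) (nb G x A)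
      rw [show (nb G x A).card = 4 by omega] at c2
      refine (twin hx e hyz a (small (a := 4) (b := 3) (CF.nb h hx) (by omega) (by omega))).le
        (X ^ 2 + 2 * X ^ 3) ?_
      simp only [map_ofNat]
      ring
  | succ n ih =>
    intro A h hc hM h2
    obtain ⟨x, hx, hx2⟩ := ex _ A hc hM h2
    obtain ⟨y, z, hyz, e⟩ := card_eq_two.1 hx2
    by_cases a : G.Adj y z
    · exact ch _ A x y z h hc h2 hx e a
    · have k := (twin_facts hx e hyz a h2).2
      have c1 := card_nb_nn (G := G) hx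
      exact (twin hx e hyz a (ih _ (CF.nb h hx) (by omega) (by omega) fun w hw =>
        (card_le_card (nn_mono w (nb_subset _ _))).trans (h2 w (nb_subset _ _ hw)))).le 0 (by ring)

theorem sec {n : ℕ} {A : Finset V} (h : CF G A (n + 3)) (hc : A.card = 3 * n + 7)
    (hM : 6 * n + 12 ≤ M G A) :
    Bd G A ((1 + 7 * X + 16 * X ^ 2 + 11 * X ^ 3) * (1 + 3 * X) ^ n) := by
  by_cases c : ∀ w ∈ A, (nn G w A).card ≤ 2
  · exact sec_le2 n A h hc hM c
  · push Not at c
    obtain ⟨x, hx, h3⟩ := c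
    have c1 := card_nb_nn (G := G) hx
    refine (Bd.del hx (zyk 3 (n := n) (h.mono (erase_subset _ _)) ?_)
      (zy3 (n := n) (CF.nb h hx) (by omega))).le (X ^ 2 * (1 + 3 * X) ^ n) (by ring)
    rw [card_erase_of_mem hx]; omega

/-- few missing pairs, and two vertices that miss only each other -/
def Gd (G : SimpleGraph V) (q : ℕ) (A : Finset V) : Prop :=
  A.card = 3 * q + 5 ∧ M G A ≤ 6 * q + 10 ∧
    ∃ p ∈ A, ∃ r ∈ A, nn G p A = {r} ∧ nn G r A = {p}

theorem pair_of_str {A : Finset V} (h : Str G A) {p : V} (hp : p ∈ A) (h1 : (nn G p A).card = 1) :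
    ∃ r ∈ A, nn G p A = {r} ∧ nn G r A = {p} := by
  obtain ⟨r, hr⟩ := card_eq_one.1 h1
  have a1 : r ∈ nn G p A := by rw [hr]; simp
  obtain ⟨b1, b2, b3⟩ := mem_nn.1 a1
  refine ⟨r, b1, hr, eq_singleton_iff_unique_mem.2 ⟨mem_nn.2 ⟨hp, b2.symm, fun c => b3 c.symm⟩, ?_⟩⟩
  intro z hz
  rcases (h p hp).2 r a1 z hz with c | c
  · exact c
  · rw [hr, mem_singleton] at c
    exact absurd c (mem_nn.1 hz).2.1

theorem count_one {A : Finset V} (h : Str G A) :
    M G A + (A.filter fun w => (nn G w A).card = 1).card = 2 * A.card := by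
  rw [M, card_filter, ← sum_add_distrib, mul_comm, ← smul_eq_mul, ← sum_const]
  refine sum_congr rfl fun x hx => ?_
  rcases (h x hx).1 with c | c <;> simp [c]

theorem mid {n : ℕ} {A : Finset V} (h : CF G A (n + 3)) (hc : A.card ≤ 3 * n + 8) {x : V}
    (hx : x ∈ A) (h3 : 3 ≤ (nn G x A).card) :
    Bd G A ((1 + 2 * X) ^ 2 * (1 + 4 * X) * (1 + 3 * X) ^ n) := by
  have c1 := card_nb_nn (G := G) hx
  refine (Bd.del hx (zyk 2 (n := n + 1) (h.mono (erase_subset _ _)) ?_)
    (zyk 2 (n := n) (CF.nb h hx) (by omega))).le 0 (by ring)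
  rw [card_erase_of_mem hx]; omega

theorem not_gd {n : ℕ} {A : Finset V} (h : CF G A (n + 3)) (hc : A.card ≤ 3 * n + 8)
    (hg : ¬ Gd G (n + 1) A) : Bd G A ((1 + 5 * X + 5 * X ^ 2) * (1 + 3 * X) ^ (n + 1)) := by
  rcases hc.lt_or_eq with c | c
  · exact (zyk 2 (n := n + 1) h (by omega)).le ((X + X ^ 2) * (1 + 3 * X) ^ (n + 1)) (by ring)
  by_cases c2 : ∀ w ∈ A, (nn G w A).card ≤ 2
  · have a1 := M_le_mul c2
    obtain ⟨a2, a3⟩ := turan _ A h
    have a4 := M_even (G := G) A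
    by_cases a5 : M G A + 6 * (n + 3) ≤ 4 * A.card
    · exfalso
      have a6 := count_one (a3 a5)
      obtain ⟨p, hp⟩ := card_pos.1 (show 0 < (A.filter fun w => (nn G w A).card = 1).card by omega)
      obtain ⟨p1, p2⟩ := mem_filter.1 hp
      exact hg ⟨by omega, by omega, p, p1, pair_of_str (a3 a5) p1 p2⟩
    · refine reg2 (n + 1) A h (by omega) fun w hw => ?_
      have e5 : ∑ x ∈ A, (nn G x A).card = ∑ x ∈ A, 2 := by
        rw [sum_const, smul_eq_mul, ← M]; omega
      exact (sum_eq_sum_iff_of_le c2).1 e5 w hw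
  push Not at c2
  obtain ⟨x, hx, h3⟩ := c2
  have c1 := card_nb_nn (G := G) hx
  have h' := h.mono (erase_subset x A)
  have c3 : (A.erase x).card = 3 * n + 7 := by rw [card_erase_of_mem hx]; omega
  have z2 := zyk 2 (n := n + 1) h' (by omega)
  by_cases c4 : 4 ≤ (nn G x A).card
  · exact (Bd.del hx z2 (zy3 (n := n) (CF.nb h hx) (by omega))).le (X ^ 2 * (1 + 3 * X) ^ n)
      (by ring)
  by_cases c5 : 6 * n + 12 ≤ M G (A.erase x)
  · exact (Bd.del hx (sec h' c3 c5) (zyk 2 (n := n) (CF.nb h hx) (by omega))).le 0 (by ring)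
  have a4 := M_even (G := G) (A.erase x)
  obtain ⟨a2, a3⟩ := turan _ _ h'
  have st := a3 (by omega)
  have a6 := count_one st
  have a7 := M_erase (G := G) hx
  obtain ⟨p, hp, hp'⟩ := exists_mem_notMem_of_card_lt_card (s := nn G x A)
    (t := (A.erase x).filter fun w => (nn G w (A.erase x)).card = 1) (by omega)
  obtain ⟨p1, p2⟩ := mem_filter.1 hp
  obtain ⟨r, r1, r2, r3⟩ := pair_of_str st p1 p2
  have hxp : G.Adj x p := by
    by_contra c
    exact hp' (mem_nn.2 ⟨mem_of_mem_erase p1, ne_of_mem_erase p1, c⟩)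
  have same : ∀ w, G.Adj x w → nn G w A = nn G w (A.erase x) := fun w hw => by
    ext t
    simp only [mem_nn, mem_erase]
    exact ⟨fun c => ⟨⟨fun d => c.2.2 (d ▸ hw.symm), c.1⟩, c.2⟩, fun c => ⟨c.1.2, c.2⟩⟩
  have hxr : ¬ G.Adj x r := fun c => hg ⟨by omega, by omega, p, mem_of_mem_erase p1, r,
    mem_of_mem_erase r1, by rw [same p hxp, r2], by rw [same r c, r3]⟩
  have p3 : p ∈ nb G x A := mem_nb.2 ⟨mem_of_mem_erase p1, hxp⟩
  have p4 : nn G p (nb G x A) = ∅ := by
    rw [eq_empty_iff_forall_notMem]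
    intro t ht
    have := nn_mono p (nb_subset x A) ht
    rw [same p hxp, r2, mem_singleton] at this
    exact hxr (this ▸ (mem_nb.1 (nn_subset _ _ ht)).2)
  have c6 := card_nb_nn (G := G) p3
  rw [p4, card_empty] at c6
  have w := zy0 (n := n + 1) (CF.nb (CF.nb h hx) p3) (by omega)
  exact (Bd.del hx z2 (w.ins (nb_subset _ _) (by omega))).le 0 (by ring)

end Pool.Agent.FS.C5Tri
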