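import Pool.Agent.Lib.MP_1b6faf_co.H26Con

/-!
Triangles per vertex when the degree bound is `3 q + 5` and the clique bound is `q + 3`:
the upper bound.
-/

namespace Pool.Agent.FS.C5Tri

open Finset Pool.Agent.Lib.MP_1b6faf_co.A1
open scoped Classical

variable {V : Type*} {G : SimpleGraph V}

/-- every vertex misses one or two others, and missing is transitive -/
def Str (G : SimpleGraph V) (A : Finset V) : Prop :=
  ∀ x ∈ A, ((nn G x A).card = 1 ∨ (nn G x A).card = 2) ∧
    ∀ y ∈ nn G x A, ∀ z ∈ nn G y A, z = x ∨ z ∈ nn G x A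

theorem turan (s : ℕ) : ∀ A : Finset V, CF G A s →
    4 * A.card ≤ M G A + 6 * s ∧ (M G A + 6 * s ≤ 4 * A.card → Str G A) := by
  induction s with
  | zero =>
    intro A h
    have : A = ∅ := by
      rw [eq_empty_iff_forall_notMem]
      intro x hx
      have := h {x} (by simpa using hx) (by simp)
      simp at this
    subst this
    exact ⟨by simp, fun _ x hx => by simp at hx⟩
  | succ s ih =>
    intro A h
    rcases A.eq_empty_or_nonempty with rfl | hA
    · exact ⟨by simp, fun _ x hx => by simp at hx⟩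
    obtain ⟨u, hu, hmin⟩ := exists_min_image A (fun x => (nn G x A).card) hA
    obtain ⟨i1, i2⟩ := ih _ (h.nb hu)
    have hc := card_nb_nn (G := G) hu
    set B := nb G u A with hB
    set m := (nn G u A).card with hm
    set R := A \ B with hR
    have hBA : B ⊆ A := nb_subset _ _
    have hRc : R.card = m + 1 := by rw [hR, card_sdiff_of_subset hBA]; omega
    have hdis : Disjoint B R := disjoint_sdiff
    have hun : B ∪ R = A := union_sdiff_of_subset hBA
    have e1 : M G A = M G B + ∑ x ∈ B, (nn G x R).card + ∑ x ∈ R, (nn G x A).card := by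
      rw [M, ← sum_sdiff hBA, M, ← sum_add_distrib, add_comm]
      congr 1
      refine sum_congr rfl fun x _ => ?_
      rw [← card_nn_union _ hdis, hun]
    have e2 : (m + 1) * m ≤ ∑ x ∈ R, (nn G x A).card := by
      rw [← hRc, ← smul_eq_mul]
      exact card_nsmul_le_sum _ _ _ fun x hx => hmin x (mem_sdiff.1 hx).1
    have e3 : 4 * (m + 1) ≤ (m + 1) * m + 6 := by
      rcases m with _ | _ | m
      · omega
      · omega
      · nlinarith
    refine ⟨by omega, fun ht => ?_⟩
    have hS := i2 (by omega)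
    have z1 : ∑ x ∈ B, (nn G x R).card = 0 := by omega
    have z2 : ∑ x ∈ R, (nn G x B).card = 0 := by rw [← sum_nn_comm, z1]
    have hm12 : m = 1 ∨ m = 2 := by
      have e4 : (m + 1) * m + 6 ≤ 4 * (m + 1) := by omega
      rcases m with _ | _ | _ | m
      · omega
      · omega
      · omega
      · nlinarith
    have z3 : ∀ x ∈ R, (nn G x A).card = m := by
      have e5 : ∑ x ∈ R, m = ∑ x ∈ R, (nn G x A).card := by
        rw [sum_const, hRc, smul_eq_mul]; omega
      intro x hx
      exact ((sum_eq_sum_iff_of_le fun x hx => hmin x (mem_sdiff.1 hx).1).1 e5 x hx).symm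
    have hb : ∀ x ∈ B, nn G x A = nn G x B := fun x hx => by
      have := card_eq_zero.1 (sum_eq_zero_iff.1 z1 x hx)
      rw [← hun, nn, filter_union]
      change nn G x B ∪ nn G x R = _
      rw [this, union_empty]
    have hr : ∀ x ∈ R, nn G x A = R.erase x := fun x hx => by
      have h0 := card_eq_zero.1 (sum_eq_zero_iff.1 z2 x hx)
      refine eq_of_subset_of_card_le (fun y hy => ?_) (by rw [card_erase_of_mem hx, z3 x hx]; omega)
      obtain ⟨a1, a2, a3⟩ := mem_nn.1 hy
      refine mem_erase.2 ⟨a2, mem_sdiff.2 ⟨a1, fun c => ?_⟩⟩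
      have : y ∈ nn G x B := mem_nn.2 ⟨c, a2, a3⟩
      rw [h0] at this
      simp at this
    intro x hx
    rw [← hun] at hx
    rcases mem_union.1 hx with hx | hx
    · rw [hb x hx]
      refine ⟨(hS x hx).1, fun y hy z hz => ?_⟩
      rw [hb y (nn_subset _ _ hy)] at hz
      exact (hS x hx).2 y hy z hz
    · refine ⟨by rw [z3 x hx]; exact hm12, fun y hy z hz => ?_⟩
      rw [hr x hx] at hy ⊢
      rw [hr y (mem_of_mem_erase hy)] at hz
      by_cases c : z = x
      · exact Or.inl c
      · exact Or.inr (mem_erase.2 ⟨c, mem_of_mem_erase hz⟩)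

variable [Fintype V]

/-- the vertices whose neighbourhood spans the largest possible number of edges -/
def Top (G : SimpleGraph V) (q : ℕ) (v : V) : Prop :=
  (nb G v univ).card = 3 * q + 5 ∧ M G (nb G v univ) = 6 * q + 8 ∧ Str G (nb G v univ)

/-- the neighbours of `v` that miss two other neighbours -/
noncomputable def PP (G : SimpleGraph V) (v : V) : Finset V :=
  (nb G v univ).filter fun y => (nn G y (nb G v univ)).card = 2

theorem link_le {q : ℕ} (hd : ∀ v, (nb G v univ).card ≤ 3 * q + 5) (hc : CF G univ (q + 3))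
    (v : V) : 2 * K G (nb G v univ) 2 ≤ (3 * q + 5) * (3 * q + 2) + if Top G q v then 2 else 0 := by
  obtain ⟨h1, h2⟩ := turan (q + 2) _ (hc.nb (mem_univ v))
  have h3 := K_two (G := G) (nb G v univ)
  have h4 := M_even (G := G) (nb G v univ)
  have h5 := hd v
  have h6 : ¬ Top G q v → (nb G v univ).card = 3 * q + 5 → 6 * q + 10 ≤ M G (nb G v univ) := by
    intro c1 c2
    by_contra c3
    exact c1 ⟨c2, by omega, h2 (by omega)⟩
  generalize (nb G v univ).card = d at *
  rcases Nat.lt_or_ge d (3 * q + 4) with c | c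
  · have : d * d ≤ (3 * q + 5) * (3 * q + 2) + d := by
      rcases d with _ | d
      · omega
      · have : (d + 1) * d ≤ (3 * q + 5) * (3 * q + 2) := Nat.mul_le_mul (by omega) (by omega)
        nlinarith
    omega
  · rcases c.eq_or_lt with c | c
    · subst c
      have : 2 * K G (nb G v univ) 2 ≤ (3 * q + 5) * (3 * q + 2) := by nlinarith
      omega
    · have c' : d = 3 * q + 5 := by omega
      subst c'
      split_ifs with c1
      · nlinarith
      · have := h6 c1 rfl
        nlinarith

theorem card_PP {q : ℕ} {v : V} (h : Top G q v) :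
    (PP G v).card = 3 * q + 3 := by
  obtain ⟨h1, h2, h3⟩ := h
  have : M G (nb G v univ) = (nb G v univ).card + (PP G v).card := by
    rw [M, PP, card_filter, card_eq_sum_ones (nb G v univ), ← sum_add_distrib]
    refine sum_congr rfl fun x hx => ?_
    rcases (h3 x hx).1 with c | c <;> simp [c]
  omega

theorem not_top {q : ℕ} (hd : ∀ v, (nb G v univ).card ≤ 3 * q + 5) {v y : V} (h : Top G q v)
    (hy : y ∈ PP G v) : ¬ Top G q y := by
  intro ht
  have hP := card_PP h
  obtain ⟨h1, -, h3⟩ := h
  obtain ⟨t1, -, t3⟩ := ht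
  obtain ⟨y1, y2⟩ := mem_filter.1 hy
  obtain ⟨p, p1, p2⟩ := exists_mem_notMem_of_card_lt_card
    (show (PP G v).card < (nb G v univ).card by omega)
  have p3 : (nn G p (nb G v univ)).card = 1 := by
    rcases (h3 p p1).1 with c | c
    · exact c
    · exact absurd (mem_filter.2 ⟨p1, c⟩) p2
  have hvy : G.Adj v y := (mem_nb.1 y1).2
  have hvp : G.Adj v p := (mem_nb.1 p1).2
  have hpy : G.Adj y p := by
    by_contra c
    have hne : y ≠ p := fun e => p2 (e ▸ hy)
    have a1 : y ∈ nn G p (nb G v univ) := mem_nn.2 ⟨y1, hne, fun e => c e.symm⟩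
    have a2 : nn G y (nb G v univ) ⊆ {p} := by
      intro z hz
      rcases (h3 p p1).2 y a1 z hz with e | e
      · exact mem_singleton.2 e
      · obtain ⟨w, hw⟩ := card_eq_one.1 p3
        rw [hw, mem_singleton] at a1 e
        exact absurd (e.trans a1.symm) (mem_nn.1 hz).2.1
    have := card_le_card a2
    rw [card_singleton] at this
    omega
  have v1 : v ∈ nb G y univ := mem_nb.2 ⟨mem_univ _, hvy.symm⟩
  have p4 : p ∈ nb G y univ := mem_nb.2 ⟨mem_univ _, hpy⟩
  have e1 : nb G v (nb G y univ) = nb G y (nb G v univ) := by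
    ext z; simp only [mem_nb]; tauto
  have c1 := card_nb_nn (G := G) v1
  have c2 := card_nb_nn (G := G) y1
  have c3 := card_nb_nn (G := G) p1
  rw [e1] at c1
  have hsub : nb G p (nb G v univ) ∪ insert v (nn G v (nb G y univ)) ⊆ nb G p univ := by
    intro z hz
    refine mem_nb.2 ⟨mem_univ _, ?_⟩
    rcases mem_union.1 hz with c | c
    · exact (mem_nb.1 c).2
    · rcases mem_insert.1 c with rfl | c
      · exact hvp.symm
      · by_contra c'
        obtain ⟨a1, a2, a3⟩ := mem_nn.1 c
        have a4 : p ∈ nn G z (nb G y univ) :=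
          mem_nn.2 ⟨p4, fun e => a3 (e ▸ hvp), fun e => c' e.symm⟩
        rcases (t3 v v1).2 z c p a4 with e | e
        · exact hvp.ne' e
        · exact (mem_nn.1 e).2.2 hvp
  have hdis : Disjoint (nb G p (nb G v univ)) (insert v (nn G v (nb G y univ))) := by
    rw [disjoint_left]
    intro z a1 a2
    have a3 := (mem_nb.1 (mem_nb.1 a1).1).2
    rcases mem_insert.1 a2 with rfl | c
    · exact G.irrefl a3
    · exact (mem_nn.1 c).2.2 a3
  have c4 := card_le_card hsub
  rw [card_union_of_disjoint hdis, card_insert_of_notMem (fun c => (mem_nn.1 c).2.1 rfl)] at c4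
  have := hd p
  omega

theorem few_top {q : ℕ} (hd : ∀ v, (nb G v univ).card ≤ 3 * q + 5) {v y : V} (h : Top G q v)
    (hy : y ∈ PP G v) : (nb G y (univ.filter (Top G q))).card ≤ 5 := by
  have hP := card_PP h
  obtain ⟨y1, y2⟩ := mem_filter.1 hy
  have c2 := card_nb_nn (G := G) y1
  have hPA : PP G v ⊆ nb G v univ := filter_subset _ _
  have a1 : (nb G y (nb G v univ)).card ≤ (nb G y (PP G v)).card + 2 := by
    have e := union_sdiff_of_subset hPA
    have e2 := card_nb_union (G := G) y (disjoint_sdiff (s := PP G v) (t := nb G v univ))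
    rw [e] at e2
    have e3 := card_le_card (nb_subset (G := G) y (nb G v univ \ PP G v))
    rw [card_sdiff_of_subset hPA, h.1] at e3
    omega
  have hdis : Disjoint (PP G v) (univ.filter (Top G q)) := by
    rw [disjoint_left]
    intro z b1 b2
    exact not_top hd h b1 (mem_filter.1 b2).2
  have a2 := card_nb_union (G := G) y hdis
  have a3 := card_le_card (nb_mono (G := G) y (subset_univ (PP G v ∪ univ.filter (Top G q))))
  have a4 := hd y
  have a5 := h.1
  omega

theorem count_top {q : ℕ} (hd : ∀ v, (nb G v univ).card ≤ 3 * q + 5) :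
    (3 * q + 8) * (univ.filter (Top G q)).card ≤ 5 * (univ : Finset V).card := by
  set C := univ.filter (Top G q) with hC
  set Y := univ.filter fun y => ∃ v, Top G q v ∧ y ∈ PP G v with hY
  have a1 : C.card * (3 * q + 3) ≤ ∑ v ∈ C, (nb G v Y).card := by
    rw [← smul_eq_mul]
    refine card_nsmul_le_sum _ _ _ fun v hv => ?_
    have ht := (mem_filter.1 hv).2
    rw [← card_PP ht]
    exact card_le_card fun y hy => mem_nb.2 ⟨mem_filter.2 ⟨mem_univ _, v, ht, hy⟩,
      (mem_nb.1 (mem_filter.1 hy).1).2⟩
  have a2 : ∑ y ∈ Y, (nb G y C).card ≤ Y.card * 5 := by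
    rw [← smul_eq_mul]
    refine sum_le_card_nsmul _ _ _ fun y hy => ?_
    obtain ⟨v, h1, h2⟩ := (mem_filter.1 hy).2
    exact few_top hd h1 h2
  have a3 : Disjoint C Y := by
    rw [disjoint_left]
    intro z b1 b2
    obtain ⟨v, h1, h2⟩ := (mem_filter.1 b2).2
    exact not_top hd h1 h2 (mem_filter.1 b1).2
  have a4 := card_le_card (subset_univ (C ∪ Y))
  rw [card_union_of_disjoint a3] at a4
  rw [sum_nb_comm] at a1
  nlinarith

theorem upper {q : ℕ} (hd : ∀ v, (nb G v univ).card ≤ 3 * q + 5) (hc : CF G univ (q + 3)) :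
    (3 * q + 8) * (6 * K G univ 3) ≤
      ((3 * q + 8) * ((3 * q + 5) * (3 * q + 2)) + 10) * (univ : Finset V).card := by
  have a1 := K_double (G := G) univ 2
  have a2 := sum_le_sum fun v (_ : v ∈ (univ : Finset V)) => link_le hd hc v
  rw [← mul_sum, ← a1, sum_add_distrib, sum_const, smul_eq_mul, ← sum_filter, sum_const,
    smul_eq_mul] at a2
  have a3 := count_top hd
  have a4 := Nat.mul_le_mul_left (3 * q + 8) a2
  simp only [Nat.reduceAdd] at a4
  nlinarith

end Pool.Agent.FS.C5Tri
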